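import Pool.Agent.PX.Stmts

set_option autoImplicit false

/-! # PX, row DEX: detection (edit of `Helper74_PW/DET.lean`) -/

namespace Pool.Agent.PX.H70

open MvPolynomial
open Pool.Agent.RS (FF io)
open Pool.Agent.PW (dd JUN RR FG Robust VV Piv del eul Ph Zer Free)

variable {E : Type} [Field E]

section filt

variable {ρ c0 k : ℕ} {y : Fin ρ → MvPolynomial ℕ E} {J1 : Finset ℕ} {Fi : ℕ → FF E → Prop}

theorem fi_one (hF : Filt c0 k y J1 Fi) : Fi 0 1 := by
  have := hF.poly 1
  rwa [map_one] at this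

theorem fi_neg (hF : Filt c0 k y J1 Fi) {j : ℕ} {w : FF E} (h : Fi j w) : Fi j (-w) := by
  have h1 := hF.mul 0 j _ _ (hF.poly (-1)) h
  rwa [zero_add, map_neg, map_one, neg_one_mul] at h1

theorem fi_sub (hF : Filt c0 k y J1 Fi) {j : ℕ} {v w : FF E} (hv : Fi j v) (hw : Fi j w) :
    Fi j (v - w) := by
  rw [sub_eq_add_neg]
  exact hF.add j _ _ hv (fi_neg hF hw)

theorem fi_mono (hF : Filt c0 k y J1 Fi) {j l : ℕ} (h : j ≤ l) {w : FF E} (hw : Fi l w) :
    Fi j w := by
  induction l, h using Nat.le_induction with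
  | base => exact hw
  | succ l _ ih => exact ih (hF.mono l w hw)

theorem fi_sum (hF : Filt c0 k y J1 Fi) {ι : Type} (s : Finset ι) (f : ι → FF E) {j : ℕ}
    (h : ∀ t ∈ s, Fi j (f t)) : Fi j (∑ t ∈ s, f t) := by
  classical
  induction s using Finset.induction_on with
  | empty =>
    rw [Finset.sum_empty]
    exact hF.zero j
  | insert a s ha ih =>
    rw [Finset.sum_insert ha]
    exact hF.add j _ _ (h a (Finset.mem_insert_self a s))
      (ih fun t ht => h t (Finset.mem_insert_of_mem ht))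

theorem alg_eq (c : E) : algebraMap E (FF E) c = io E (C c) := by
  rw [IsScalarTower.algebraMap_apply E (MvPolynomial ℕ E) (FF E)]
  rfl

theorem fi_alg (hF : Filt c0 k y J1 Fi) (c : E) : Fi 0 (algebraMap E (FF E) c) := by
  rw [alg_eq]
  exact hF.poly _

theorem fi_span (hF : Filt c0 k y J1 Fi) {g : MvPolynomial ℕ E}
    (hg : g ∈ Submodule.span E (Set.range y)) : Fi 1 (io E g) := by
  induction hg using Submodule.span_induction with
  | mem x hx =>
    obtain ⟨a, rfl⟩ := hx
    exact hF.mem a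
  | zero =>
    rw [map_zero]
    exact hF.zero 1
  | add u v _ _ hu hv =>
    rw [map_add]
    exact hF.add 1 _ _ hu hv
  | smul c u _ hu =>
    rw [smul_eq_C_mul, map_mul]
    have h1 := hF.mul 0 1 _ _ (hF.poly (C c)) hu
    rwa [zero_add] at h1

theorem fi_list (hF : Filt c0 k y J1 Fi) (l : List (MvPolynomial ℕ E))
    (h : ∀ g ∈ l, g ∈ Submodule.span E (Set.range y)) : Fi l.length (io E l.prod) := by
  induction l with
  | nil =>
    rw [List.prod_nil, map_one]
    exact fi_one hF
  | cons a l ih =>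
    rw [List.prod_cons, map_mul, List.length_cons, add_comm]
    exact hF.mul 1 l.length _ _ (fi_span hF (h a List.mem_cons_self))
      (ih fun g hg => h g (List.mem_cons_of_mem a hg))

theorem fi_inv (hF : Filt c0 k y J1 Fi) (l : List (MvPolynomial ℕ E))
    (h : ∀ g ∈ l, IsLo c0 g ∧ g ∉ Submodule.span E (Set.range y)) : Fi 0 (io E l.prod)⁻¹ := by
  induction l with
  | nil =>
    rw [List.prod_nil, map_one, inv_one]
    exact fi_one hF
  | cons a l ih =>
    rw [List.prod_cons, map_mul, mul_inv]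
    have h1 := h a List.mem_cons_self
    exact hF.mul 0 0 _ _ (hF.unitM a h1.1 h1.2) (ih fun g hg => h g (List.mem_cons_of_mem a hg))

end filt

theorem iter_sum (δ : Derivation E (FF E) (FF E)) {ι : Type} (s : Finset ι) (f : ι → FF E)
    (d : ℕ) : (fun x => δ x)^[d] (∑ t ∈ s, f t) = ∑ t ∈ s, (fun x => δ x)^[d] (f t) := by
  induction d with
  | zero => rfl
  | succ d ih =>
    rw [Function.iterate_succ_apply', ih, map_sum]
    exact Finset.sum_congr rfl fun t _ => by rw [Function.iterate_succ_apply']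

theorem prod_split (p : MvPolynomial ℕ E → Prop) [DecidablePred p]
    (l : List (MvPolynomial ℕ E)) :
    l.prod = (l.filter fun g => p g).prod * (l.filter fun g => ¬ p g).prod := by
  induction l with
  | nil => simp
  | cons a l ih =>
    by_cases h : p a
    · rw [List.filter_cons_of_pos (by simpa using h), List.filter_cons_of_neg (by simpa using h),
        List.prod_cons, List.prod_cons, ih]
      ring
    · rw [List.filter_cons_of_neg (by simpa using h), List.filter_cons_of_pos (by simpa using h),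
        List.prod_cons, List.prod_cons, ih]
      ring

theorem dex (hDFX : DfxStmt) (hDDX : DdxStmt) (hDLX : DlxStmt) : DexStmt := by
  classical
  intro E _ _ ρ c0 k R y J1 z Fi hz hzJ hzv hF ι _ H b h0 hlen hb hQ θ hθ
  obtain ⟨M, hM⟩ : ∃ M, M = Submodule.span E (Set.range y) := ⟨_, rfl⟩
  rw [← hM] at hθ ⊢
  -- the parts of the lists
  obtain ⟨bM, hbM⟩ : ∃ bM : ι → List (MvPolynomial ℕ E),
      bM = fun t => (b t).filter fun g => g ∈ M := ⟨_, rfl⟩
  obtain ⟨bN, hbN⟩ : ∃ bN : ι → List (MvPolynomial ℕ E),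
      bN = fun t => (b t).filter fun g => ¬ g ∈ M := ⟨_, rfl⟩
  have hspl : ∀ t, (b t).prod = (bM t).prod * (bN t).prod := by
    intro t
    rw [hbM, hbN]
    exact prod_split (fun g => g ∈ M) (b t)
  have hbMm : ∀ t, ∀ g ∈ bM t, g ∈ b t ∧ g ∈ M := by
    intro t g hg
    rw [hbM] at hg
    simpa using hg
  have hbNm : ∀ t, ∀ g ∈ bN t, g ∈ b t ∧ g ∉ M := by
    intro t g hg
    rw [hbN] at hg
    simpa using hg
  have hne : ∀ l : List (MvPolynomial ℕ E), (∀ g ∈ l, g ≠ 0) → io E l.prod ≠ 0 := by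
    intro l hl h
    have h1 : l.prod = 0 := by
      apply Pool.Agent.RS.io_injective
      rw [h, map_zero]
    rw [List.prod_eq_zero_iff] at h1
    exact hl 0 h1 rfl
  have hπ : ∀ t, io E (bM t).prod ≠ 0 := fun t => hne _ fun g hg => (hb t g (hbMm t g hg).1).1
  -- the terms
  obtain ⟨Q, hQ'⟩ : ∃ Q, Q = ∏ t, (bM t).prod := ⟨_, rfl⟩
  obtain ⟨T, hT⟩ : ∃ T : ι → FF E, T = fun t => H t *
      (∏ t' ∈ Finset.univ.erase t, io E (bM t').prod) * (io E (bN t).prod)⁻¹ := ⟨_, rfl⟩
  have hsum : io E Q * ∑ t, H t / io E (b t).prod = ∑ t, T t := by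
    rw [Finset.mul_sum]
    refine Finset.sum_congr rfl fun t _ => ?_
    rw [hT, hQ', map_prod, hspl, map_mul, ← Finset.mul_prod_erase _ _ (Finset.mem_univ t)]
    have h1 := hπ t
    have h2 : io E (bN t).prod ≠ 0 := hne _ fun g hg => (hb t g (hbNm t g hg).1).1
    field_simp
  obtain ⟨n, hn⟩ : ∃ n : ι → ℕ, n = fun t => (bM t).length := ⟨_, rfl⟩
  obtain ⟨D, hD⟩ : ∃ D : ℕ, D = ∑ t, n t := ⟨_, rfl⟩
  have hDt : ∀ t, n t + ∑ t' ∈ Finset.univ.erase t, n t' = D := fun t => by
    rw [hD, Finset.add_sum_erase _ _ (Finset.mem_univ t)]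
  have hprod : ∀ s : Finset ι, Fi (∑ t ∈ s, n t) (∏ t ∈ s, io E (bM t).prod) := by
    intro s
    induction s using Finset.induction_on with
    | empty =>
      rw [Finset.sum_empty, Finset.prod_empty]
      exact fi_one hF
    | insert a s ha ih =>
      rw [Finset.sum_insert ha, Finset.prod_insert ha]
      refine hF.mul _ _ _ _ ?_ ih
      rw [hn]
      exact fi_list hF _ fun g hg => hM ▸ (hbMm a g hg).2
  have hTF : ∀ t, Fi (D - n t) (T t) := by
    intro t
    have h1 := hF.mul _ _ _ _ (hF.mul _ _ _ _ (h0 t) (hprod (Finset.univ.erase t)))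
      (fi_inv hF (bN t) fun g hg => ⟨(hb t g (hbNm t g hg).1).2, hM ▸ (hbNm t g hg).2⟩)
    rw [zero_add, add_zero] at h1
    have h2 : ∑ t' ∈ Finset.univ.erase t, n t' = D - n t := by
      have := hDt t
      omega
    rw [h2] at h1
    rw [hT]
    exact h1
  have hW0 : Fi 0 (io E Q * ∑ t, H t / io E (b t).prod) := by
    rw [hsum]
    exact fi_sum hF _ _ fun t _ => fi_mono hF (Nat.zero_le _) (hTF t)
  have hW := hQ Q hW0
  rw [hsum] at hW
  -- the top terms
  obtain ⟨S, hS⟩ : ∃ S : Finset ι, S = Finset.univ.filter fun t => (b t).length = R ∧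
      ∀ g ∈ b t, g ∈ M := ⟨_, rfl⟩
  rw [← hS]
  have hSm : ∀ t, t ∈ S ↔ (b t).length = R ∧ ∀ g ∈ b t, g ∈ M := by
    intro t
    rw [hS, Finset.mem_filter]
    simp
  have hSb : ∀ t ∈ S, bM t = b t ∧ bN t = [] := by
    intro t ht
    have h1 := ((hSm t).1 ht).2
    rw [hbM, hbN]
    constructor
    · rw [List.filter_eq_self]
      intro g hg
      simpa using h1 g hg
    · rw [List.filter_eq_nil_iff]
      intro g hg
      simpa using h1 g hg
  rcases S.eq_empty_or_nonempty with hSe | ⟨t0, ht0⟩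
  · rw [hSe, Finset.sum_empty]
    exact hF.zero 1
  have hnS : ∀ t ∈ S, n t = R := by
    intro t ht
    rw [hn]
    change (bM t).length = R
    rw [(hSb t ht).1]
    exact ((hSm t).1 ht).1
  have hRD : R ≤ D := by
    have := hDt t0
    rw [hnS t0 ht0] at this
    omega
  obtain ⟨d, hd⟩ : ∃ d, d = D - R := ⟨_, rfl⟩
  have hntop : ∀ t, t ∉ S → n t + 1 ≤ R := by
    intro t ht
    have h1 : (bM t).length ≤ (b t).length := by
      rw [hbM]
      exact List.length_filter_le _ _
    have h2 := hlen t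
    have h3 : n t = (bM t).length := by rw [hn]
    by_contra h4
    apply ht
    rw [hSm]
    have h5 : (bM t).length = (b t).length := by omega
    refine ⟨by omega, ?_⟩
    have h6 : ∀ g ∈ b t, (decide (g ∈ M)) = true := by
      rw [hbM] at h5
      exact List.length_filter_eq_length_iff.1 h5
    intro g hg
    simpa using h6 g hg
  have hTtop : Fi (1 + d) (∑ t ∈ S, T t) := by
    have h1 : ∑ t ∈ S, T t = ∑ t, T t - ∑ t ∈ Finset.univ \ S, T t := by
      rw [eq_sub_iff_add_eq, add_comm]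
      exact Finset.sum_sdiff (Finset.subset_univ S)
    rw [h1]
    refine fi_sub hF (hW (1 + d)) (fi_sum hF _ _ fun t ht => ?_)
    rw [Finset.mem_sdiff] at ht
    have h2 := hntop t ht.2
    exact fi_mono hF (by omega) (hTF t)
  -- the derivation
  obtain ⟨δ, hδ⟩ : ∃ δ : Derivation E (FF E) (FF E), δ = ∑ a, θ (y a) • del y z a := ⟨_, rfl⟩
  have hδap : ∀ w, δ w = ∑ a, θ (y a) • del y z a w := by
    intro w
    rw [hδ]
    induction (Finset.univ : Finset (Fin ρ)) using Finset.induction_on with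
    | empty => simp
    | insert a s ha ih =>
      rw [Finset.sum_insert ha, Finset.sum_insert ha, Derivation.add_apply, ih]
      rfl
  have hdfi := hDFX E ρ c0 k y J1 z Fi hz hzJ hzv hF
  have hsmul : ∀ (c : E) (j : ℕ) (w : FF E), Fi j w → Fi j (c • w) := by
    intro c j w hw
    rw [Algebra.smul_def]
    have := hF.mul 0 j _ _ (fi_alg hF c) hw
    rwa [zero_add] at this
  have hδ0 : ∀ w, Fi 0 w → Fi 0 (δ w) := by
    intro w hw
    rw [hδap]
    exact fi_sum hF _ _ fun a _ => hsmul _ _ _ (hdfi.1 a w hw)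
  have hδ1 : ∀ j w, Fi (j + 1) w → Fi j (δ w) := by
    intro j w hw
    rw [hδap]
    exact fi_sum hF _ _ fun a _ => hsmul _ _ _ (hdfi.2 a j w hw)
  have hδM : ∀ g ∈ M, δ (io E g) = algebraMap E (FF E) (θ g) := by
    intro g hg
    rw [hM] at hg
    induction hg using Submodule.span_induction with
    | mem x hx =>
      obtain ⟨a', rfl⟩ := hx
      rw [hδap]
      rw [Finset.sum_congr rfl fun a _ => by
        rw [(hDLX E ρ y z hz).1 a a', smul_ite, smul_zero],
        Finset.sum_ite_eq', if_pos (Finset.mem_univ _), Algebra.smul_def, mul_one]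
    | zero => rw [map_zero, map_zero, map_zero, map_zero]
    | add u v _ _ hu hv => rw [map_add, map_add, map_add, map_add, hu, hv]
    | smul c u _ hu =>
      rw [smul_eq_C_mul, map_mul, ← alg_eq, ← Algebra.smul_def, Derivation.map_smul, hu,
        ← smul_eq_C_mul, map_smul, smul_eq_mul, map_mul, Algebra.smul_def]
  obtain ⟨hd1, hd2⟩ := hDDX E ρ c0 k y J1 Fi hF δ hδ0 hδ1
  -- the constants
  obtain ⟨κ, hκ⟩ : ∃ κ : FF E → E, ∀ g ∈ M, κ (io E g) = θ g := by
    refine ⟨fun x => if h : ∃ c, δ x = algebraMap E (FF E) c then h.choose else 0,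
      fun g hg => ?_⟩
    have h1 : ∃ c, δ (io E g) = algebraMap E (FF E) c := ⟨_, hδM g hg⟩
    change (if h : ∃ c, δ (io E g) = algebraMap E (FF E) c then h.choose else 0) = θ g
    rw [dif_pos h1]
    apply (algebraMap E (FF E)).injective
    rw [← h1.choose_spec, hδM g hg]
  obtain ⟨Θ, hΘ⟩ : ∃ Θ : ι → E, Θ = fun t => ((bM t).map θ).prod := ⟨_, rfl⟩
  have hΘ0 : ∀ t, Θ t ≠ 0 := by
    intro t h
    rw [hΘ] at h
    change ((bM t).map θ).prod = 0 at h
    rw [List.prod_eq_zero_iff, List.mem_map] at h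
    obtain ⟨g, hg, h1⟩ := h
    exact hθ t g (hbMm t g hg).1 (hbMm t g hg).2 h1
  have hq : ∀ s : Finset ι, ∃ q : List (FF E), q.prod = ∏ t ∈ s, io E (bM t).prod ∧
      q.length = ∑ t ∈ s, n t ∧ (∀ x ∈ q, ∃ g ∈ M, x = io E g) ∧
      (q.map κ).prod = ∏ t ∈ s, Θ t := by
    intro s
    induction s using Finset.induction_on with
    | empty => exact ⟨[], by simp, by simp, by simp, by simp⟩
    | insert a s ha ih =>
      obtain ⟨q, h1, h2, h3, h4⟩ := ih
      refine ⟨(bM a).map (io E) ++ q, ?_, ?_, ?_, ?_⟩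
      · rw [List.prod_append, Finset.prod_insert ha, h1, map_list_prod]
      · rw [List.length_append, List.length_map, Finset.sum_insert ha, h2, hn]
      · intro x hx
        rw [List.mem_append, List.mem_map] at hx
        rcases hx with ⟨g, hg, rfl⟩ | hx
        · exact ⟨g, (hbMm a g hg).2, rfl⟩
        · exact h3 x hx
      · rw [List.map_append, List.prod_append, Finset.prod_insert ha, h4, List.map_map, hΘ]
        congr 2
        refine List.map_congr_left fun g hg => ?_
        exact hκ g (hbMm a g hg).2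
  -- the top terms after `d` derivations
  have hkey : ∀ t ∈ S, Fi 1 ((fun x => δ x)^[d] (T t) -
      algebraMap E (FF E) ((d.factorial : E) * ∏ t' ∈ Finset.univ.erase t, Θ t') * H t) := by
    intro t ht
    obtain ⟨q, h1, h2, h3, h4⟩ := hq (Finset.univ.erase t)
    have h5 : q.length = d := by
      have := hDt t
      rw [hnS t ht] at this
      rw [h2]
      omega
    have h6 := hd2 q κ (H t) (fun x hx => by
      obtain ⟨g, hg, rfl⟩ := h3 x hx
      refine ⟨fi_span hF (hM ▸ hg), ?_⟩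
      rw [hκ g hg]
      exact hδM g hg) (h0 t)
    rw [h5, h4, h1] at h6
    have h7 : T t = H t * ∏ t' ∈ Finset.univ.erase t, io E (bM t').prod := by
      rw [hT]
      change H t * (∏ t' ∈ Finset.univ.erase t, io E (bM t').prod) * (io E (bN t).prod)⁻¹ = _
      rw [(hSb t ht).2, List.prod_nil, map_one, inv_one, mul_one]
    rw [h7]
    exact h6
  have hall := fi_sum hF S _ hkey
  rw [Finset.sum_sub_distrib, ← iter_sum] at hall
  have h8 := fi_sub hF (hd1 d 1 _ hTtop) hall
  rw [sub_sub_cancel] at h8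
  -- multiply by the constant
  have hfac : (d.factorial : E) ≠ 0 := Nat.cast_ne_zero.2 (Nat.factorial_ne_zero d)
  have hP0 : ∏ t, Θ t ≠ 0 := Finset.prod_ne_zero_iff.2 fun t _ => hΘ0 t
  have h9 := hsmul ((d.factorial : E) * ∏ t, Θ t)⁻¹ 1 _ h8
  rw [Finset.smul_sum] at h9
  have h10 : ∑ t ∈ S, ((d.factorial : E) * ∏ t, Θ t)⁻¹ • (algebraMap E (FF E)
      ((d.factorial : E) * ∏ t' ∈ Finset.univ.erase t, Θ t') * H t) =
      ∑ t ∈ S, (((b t).map θ).prod)⁻¹ • H t := by
    refine Finset.sum_congr rfl fun t ht => ?_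
    rw [← Algebra.smul_def, smul_smul]
    congr 1
    have h11 : ((b t).map θ).prod = Θ t := by
      rw [hΘ]
      change _ = ((bM t).map θ).prod
      rw [(hSb t ht).1]
    rw [h11, ← Finset.mul_prod_erase _ _ (Finset.mem_univ t)]
    have h12 := hΘ0 t
    have h13 : ∏ t' ∈ Finset.univ.erase t, Θ t' ≠ 0 :=
      Finset.prod_ne_zero_iff.2 fun t _ => hΘ0 t
    field_simp
  rw [h10] at h9
  exact h9

end Pool.Agent.PX.H70
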